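import Mathlib

/-! Characters of a finite abelian group and cyclic quotients. -/

set_option autoImplicit false

namespace Pool.Agent.Lib.MP_7ad46c_co

open Finset

variable {G : Type} [AddCommGroup G] [Finite G]

omit [Finite G] in
/-- A character of order `d` factors through a surjection onto `ZMod d`. -/
theorem gchar (ψ : AddChar G ℂ) {d : ℕ} [NeZero d] (hd : addOrderOf ψ = d) :
    ∃ π : G →+ ZMod d, Function.Surjective π ∧ ∀ x, ψ x = ZMod.stdAddChar (π x) := by
  have hne := NeZero.ne d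
  have h1 : ∀ x, ∃ k : ZMod d, ψ x = ZMod.stdAddChar k := by
    intro x
    have h2 : ψ x ^ d = 1 := by
      rw [← AddChar.nsmul_apply, ← hd, addOrderOf_nsmul_eq_zero, AddChar.zero_apply]
    obtain ⟨i, -, hi⟩ := (Complex.isPrimitiveRoot_exp d hne).eq_pow_of_pow_eq_one h2
    refine ⟨((i : ℤ) : ZMod d), ?_⟩
    rw [ZMod.stdAddChar_coe, ← hi, ← Complex.exp_nat_mul]
    congr 1
    push_cast
    ring
  choose k hk using h1
  let π : G →+ ZMod d := AddMonoidHom.mk' k fun x y => ZMod.injective_stdAddChar (by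
    rw [← hk, AddChar.map_add_eq_mul, AddChar.map_add_eq_mul, ← hk, ← hk])
  refine ⟨π, ?_, hk⟩
  rw [← AddMonoidHom.range_eq_top]
  apply AddSubgroup.eq_top_of_le_card
  rw [Nat.card_zmod]
  refine Nat.le_of_dvd Nat.card_pos ?_
  have h3 : Nat.card π.range • ψ = 0 := by
    ext x
    have h4 : Nat.card π.range • π x = 0 := by
      have h5 : Nat.card π.range • (⟨π x, x, rfl⟩ : π.range) = 0 := card_nsmul_eq_zero'
      exact congrArg Subtype.val h5
    rw [AddChar.nsmul_apply, AddChar.zero_apply, hk, ← AddChar.map_nsmul_eq_pow]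
    change ZMod.stdAddChar (Nat.card π.range • π x) = 1
    rw [h4, AddChar.map_zero_eq_one]
  have h6 := addOrderOf_dvd_of_nsmul_eq_zero h3
  rwa [hd] at h6

/-- Every divisor of the exponent is the order of a cyclic quotient. -/
theorem gquot {d : ℕ} (hd : d ∣ AddMonoid.exponent G) :
    ∃ π : G →+ ZMod d, Function.Surjective π := by
  obtain ⟨ψ, hψ⟩ := AddMonoid.exists_addOrderOf_eq_exponent
    (AddMonoid.ExponentExists.of_finite (G := AddChar G ℂ))
  have : NeZero (addOrderOf ψ) := ⟨(addOrderOf_pos ψ).ne'⟩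
  obtain ⟨π, hπ, -⟩ := gchar ψ rfl
  have h1 : AddMonoid.exponent G ∣ addOrderOf ψ := by
    refine AddMonoid.exponent_dvd_of_forall_nsmul_eq_zero fun a => ?_
    refine AddChar.forall_apply_eq_zero.1 fun φ => ?_
    rw [AddChar.map_nsmul_eq_pow, ← AddChar.nsmul_apply, hψ, AddMonoid.exponent_nsmul_eq_zero,
      AddChar.zero_apply]
  exact ⟨(ZMod.castHom (hd.trans h1) (ZMod d)).toAddMonoidHom.comp π,
    (ZMod.castHom_surjective (hd.trans h1)).comp hπ⟩

theorem gprime_dvd_exp {p : ℕ} (hp : p.Prime) (h : p ∣ Nat.card G) : p ∣ AddMonoid.exponent G := by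
  have := Fact.mk hp
  obtain ⟨x, hx⟩ := exists_prime_addOrderOf_dvd_card' p h
  exact hx ▸ AddMonoid.addOrder_dvd_exponent x

omit [Finite G] in
theorem gquot_dvd_exp {d : ℕ} {π : G →+ ZMod d} (hπ : Function.Surjective π) :
    d ∣ AddMonoid.exponent G := by
  obtain ⟨y, hy⟩ := hπ 1
  have h1 : AddMonoid.exponent G • (1 : ZMod d) = 0 := by
    rw [← hy, ← map_nsmul, AddMonoid.exponent_nsmul_eq_zero, map_zero]
  rwa [nsmul_one, ZMod.natCast_eq_zero_iff] at h1

omit [Finite G] in
theorem gcard_ker {d : ℕ} {π : G →+ ZMod d} (hπ : Function.Surjective π) :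
    Nat.card G = d * Nat.card π.ker := by
  rw [AddSubgroup.card_eq_card_quotient_mul_card_addSubgroup π.ker,
    Nat.card_congr (QuotientAddGroup.quotientKerEquivOfSurjective π hπ).toEquiv, Nat.card_zmod]

omit [Finite G] in
theorem gtwo_inj (ho : Odd (Nat.card G)) (a b : G) (h : a + a = b + b) : a = b := by
  obtain ⟨k, hk⟩ := ho
  have h1 : Nat.card G • (a - b) = 0 := card_nsmul_eq_zero'
  have h2 : 2 • (a - b) = 0 := by
    rw [two_nsmul, sub_add_sub_comm, h, sub_self]
  rw [hk, add_nsmul, mul_nsmul, h2, nsmul_zero, zero_add, one_nsmul] at h1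
  exact sub_eq_zero.1 h1

end Pool.Agent.Lib.MP_7ad46c_co
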