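import Mathlib

/-! The end analysis on fibre profiles, in a form that treats all moduli alike. -/

set_option autoImplicit false

namespace Pool.Agent.Lib.MP_7ad46c_co

open Finset

/-- possible outcomes of the end analysis, without a separate case for `d = 9` -/
def GOut (d h F m : ℕ) : Prop :=
  3 * m ≤ d * h + 7 ∨ (d % 3 = 2 ∧ 3 * m ≤ d * h + h) ∨ (d % 3 = 1 ∧ 3 * m + h ≤ d * h + 3 * F) ∨
    (d % 3 = 0 ∧ 3 * m ≤ d * h + 9 ∧ 3 * m + 3 * h ≤ d * h + 6 * F)

lemma gone_side (d h l F m s w : ℕ) (hh : 0 < h) (hw : w ≤ l) (h1 : 3 * l + 1 ≤ w + d)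
    (h2 : 2 * s ≤ (w + 1) * h + 3) (h3 : w = 0 → s ≤ F) (h4 : m ≤ s + (l - w) * h) :
    GOut d h F m := by
  obtain ⟨r, rfl⟩ := Nat.exists_eq_add_of_le hw
  rw [Nat.add_sub_cancel_left] at h4
  obtain ⟨e, he⟩ : ∃ e, d = 2 * w + 3 * r + 1 + e := ⟨d - (2 * w + 3 * r + 1), by omega⟩
  subst he
  by_cases hw0 : w = 0
  · subst hw0
    by_cases he : e = 0
    · subst he
      right; right; left
      have := h3 rfl
      exact ⟨by omega, by nlinarith⟩
    · left
      obtain ⟨e', rfl⟩ : ∃ e', e = e' + 1 := ⟨e - 1, by omega⟩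
      have : 6 * m ≤ 2 * ((2 * 0 + 3 * r + 1 + (e' + 1)) * h) + 9 := by nlinarith
      omega
  · left
    obtain ⟨w', rfl⟩ : ∃ w', w = w' + 1 := ⟨w - 1, by omega⟩
    have : 6 * m ≤ 2 * ((2 * (w' + 1) + 3 * r + 1 + e) * h) + 9 := by nlinarith
    omega

lemma gtwo_side (d h l F m s1 s2 y z : ℕ) (hh : Odd h) (hd : 2 * l + 1 ≤ d)
    (h1 : y + z + d = 3 * l)
    (h2 : 2 * s1 ≤ (y + 1) * h + 3) (h2' : 2 * s2 ≤ (z + 1) * h + 3)
    (h3 : y = 0 → s1 ≤ F) (h3' : z = 0 → s2 ≤ F) (h4 : m ≤ s1 + s2 + (l - z - (y + 1)) * h)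
    (h5 : m ≤ (l + 1) * h) : GOut d h F m := by
  obtain ⟨r, rfl⟩ : ∃ r, l = y + z + 1 + r := ⟨l - (y + z + 1), by omega⟩
  have e : y + z + 1 + r - z - (y + 1) = r := by omega
  rw [e] at h4
  obtain rfl : d = 2 * y + 2 * z + 3 + 3 * r := by omega
  have key : 6 * m + (y + z) * h ≤ 2 * ((2 * y + 2 * z + 3 + 3 * r) * h) + 18 := by nlinarith
  by_cases h0 : y + z = 0
  · obtain rfl : y = 0 := by omega
    obtain rfl : z = 0 := by omega
    right; right; right
    have := h3 rfl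
    have := h3' rfl
    exact ⟨by omega, by omega, by nlinarith⟩
  · left
    by_cases hh1 : h = 1
    · subst hh1; omega
    · have : 3 ≤ h := by obtain ⟨k, rfl⟩ := hh; omega
      have : 3 ≤ (y + z) * h := by nlinarith [Nat.pos_of_ne_zero h0]
      omega

theorem gcore (d h l γ F m : ℕ) (b : ℕ → ℕ) (hdo : Odd d) (hh : Odd h) (hn : 17 ≤ d * h)
    (hd1 : 1 < d) (hd : 2 * l + 1 ≤ d) (hγ : γ < d) (hb : ∀ t, b t ≤ h) (b0 : 0 < b 0)
    (bl : 0 < b l) (hm : m = ∑ t ∈ Ico 0 (l + 1), b t)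
    (Win : ∀ t0 u1 u2, t0 ≤ l → 0 < b t0 → u1 ≤ u2 → u2 ≤ l → (t0 + u1 + u2) % d = γ →
      2 * ∑ t ∈ Ico u1 (u2 + 1), b t ≤ (u2 + 1 - u1) * h + 3)
    (Pair : ∀ t0 t1 t2, t0 ≤ l → t1 ≤ l → t2 ≤ l → 0 < b t0 → t1 ≠ t2 → t1 ≠ t0 →
      (t0 + t1 + t2) % d = γ → b t1 + b t2 ≤ h + 1)
    (Rec : ∀ t, t ≤ l → (3 * t) % d = γ → b t ≤ F) : GOut d h F m := by
  have hpos : 0 < h := hh.pos
  have Sle : ∀ i j, ∑ t ∈ Ico i j, b t ≤ (j - i) * h := by
    intro i j
    have := Finset.sum_le_card_nsmul (Ico i j) b h (fun t _ => hb t)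
    simpa using this
  have Sadd : ∀ i j k, i ≤ j → j ≤ k →
      ∑ t ∈ Ico i k, b t = ∑ t ∈ Ico i j, b t + ∑ t ∈ Ico j k, b t :=
    fun i j k h1 h2 => (Finset.sum_Ico_consecutive b h1 h2).symm
  have Sone : ∀ i, ∑ t ∈ Ico i (i + 1), b t = b i := by intro i; simp
  have mle : m ≤ (l + 1) * h := by have := Sle 0 (l + 1); rw [hm]; simpa using this
  have md : ∀ x, x < d → x % d = x := fun x hx => Nat.mod_eq_of_lt hx
  have md' : ∀ x, x < d → (x + d) % d = x := fun x hx => by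
    rw [Nat.add_mod_right]; exact md x hx
  by_cases c1 : γ ≤ l
  · have w1 := Win 0 0 γ (by omega) b0 (by omega) c1 (by rw [zero_add, zero_add]; exact md _ hγ)
    rw [Nat.sub_zero] at w1
    have r1 : γ = 0 → ∑ t ∈ Ico 0 (γ + 1), b t ≤ F := by
      rintro rfl; rw [Sone]; exact Rec 0 (by omega) (by simp)
    by_cases c2 : γ + d ≤ 3 * l
    · obtain ⟨z, hz⟩ : ∃ z, γ + z + d = 3 * l := ⟨3 * l - (γ + d), by omega⟩
      have w2 := Win l (l - z) l le_rfl bl (by omega) le_rfl (by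
        rw [show l + (l - z) + l = γ + d by omega]; exact md' _ hγ)
      rw [show l + 1 - (l - z) = z + 1 by omega] at w2
      refine gtwo_side d h l F m _ _ γ z hh hd hz w1 w2 r1 ?_ ?_ mle
      · rintro rfl
        rw [Nat.sub_zero, Sone]
        exact Rec l le_rfl (by rw [show 3 * l = γ + d by omega]; exact md' _ hγ)
      · rw [hm, Sadd 0 (γ + 1) (l + 1) (by omega) (by omega),
          Sadd (γ + 1) (l - z) (l + 1) (by omega) (by omega)]
        have := Sle (γ + 1) (l - z)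
        omega
    · refine gone_side d h l F m _ γ hpos c1 (by omega) w1 r1 ?_
      rw [hm, Sadd 0 (γ + 1) (l + 1) (by omega) (by omega)]
      have := Sle (γ + 1) (l + 1)
      rw [show l + 1 - (γ + 1) = l - γ by omega] at this
      omega
  by_cases c2 : 3 * l < γ
  · obtain ⟨e, rfl⟩ : ∃ e, d = 3 * l + 2 + e := ⟨d - (3 * l + 2), by omega⟩
    by_cases he : e = 0
    · subst he
      right; left
      exact ⟨by omega, by nlinarith⟩
    · left
      obtain ⟨e', rfl⟩ : ∃ e', e = e' + 1 := ⟨e - 1, by omega⟩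
      nlinarith
  by_cases c3 : 2 * l ≤ γ
  · obtain ⟨z, hz⟩ : ∃ z, γ + z = 3 * l := ⟨3 * l - γ, by omega⟩
    have w2 := Win l (l - z) l le_rfl bl (by omega) le_rfl (by
      rw [show l + (l - z) + l = γ by omega]; exact md _ hγ)
    rw [show l + 1 - (l - z) = z + 1 by omega] at w2
    refine gone_side d h l F m _ z hpos (by omega) (by omega) w2 ?_ ?_
    · rintro rfl
      rw [Nat.sub_zero, Sone]
      exact Rec l le_rfl (by rw [show 3 * l = γ by omega]; exact md _ hγ)
    · rw [hm, Sadd 0 (l - z) (l + 1) (by omega) (by omega)]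
      have := Sle 0 (l - z)
      rw [Nat.sub_zero] at this
      omega
  -- the middle case
  obtain ⟨v, rfl⟩ : ∃ v, γ = l + v := ⟨γ - l, by omega⟩
  have v1 : 1 ≤ v := by omega
  have v2 : v < l := by omega
  by_cases bv : 0 < b v
  · have w := Win v 0 l (by omega) bv (by omega) le_rfl (by
      rw [show v + 0 + l = l + v by omega]; exact md _ hγ)
    rw [← hm, Nat.sub_zero] at w
    left
    have : (3 * l + 3) * h ≤ (2 * d) * h := Nat.mul_le_mul_right _ (by omega)
    nlinarith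
  have bv0 : b v = 0 := by omega
  have w1 := Win 0 v l (by omega) b0 (by omega) le_rfl (by
    rw [show 0 + v + l = l + v by omega]; exact md _ hγ)
  have w2 := Win l 0 v le_rfl bl (by omega) (by omega) (by
    rw [show l + 0 + v = l + v by omega]; exact md _ hγ)
  have s1 := Sadd 0 (v + 1) (l + 1) (by omega) (by omega)
  have s2 := Sadd v (v + 1) (l + 1) (by omega) (by omega)
  have s3 := Sadd 0 v (v + 1) (by omega) (by omega)
  rw [Sone, bv0] at s2 s3
  have s4 := Sle 0 v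
  have s5 := Sle (v + 1) (l + 1)
  obtain ⟨r, rfl⟩ : ∃ r, l = v + 1 + r := ⟨l - (v + 1), by omega⟩
  rw [show v + 1 + r + 1 - v = r + 2 by omega] at w1
  rw [show v + 1 + r + 1 - (v + 1) = r + 1 by omega] at s5
  rw [Nat.sub_zero] at w2 s4
  have m1 : 2 * m ≤ (v + 1 + r + 2) * h + 6 := by nlinarith
  have m2 : m ≤ (v + 1 + r) * h := by nlinarith
  generalize hl : v + 1 + r = l at *
  by_cases c4 : 3 * l ≤ d
  · left
    have : (3 * l) * h ≤ d * h := Nat.mul_le_mul_right _ c4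
    nlinarith
  by_cases c5 : 3 * l + 9 ≤ 2 * d
  · left
    have : (3 * l + 9) * h ≤ (2 * d) * h := Nat.mul_le_mul_right _ c5
    have : 6 * m ≤ 2 * (d * h) + 15 := by nlinarith
    omega
  have h3 : 3 ≤ h := by
    obtain ⟨k, rfl⟩ := hh
    by_contra hc
    obtain rfl : k = 0 := by omega
    omega
  by_cases c6 : 3 * l + 7 ≤ 2 * d
  · left
    have : (3 * l + 7) * h ≤ (2 * d) * h := Nat.mul_le_mul_right _ c6
    have : 6 * m ≤ 2 * (d * h) + 15 := by nlinarith
    omega
  obtain ⟨k, hk⟩ := hdo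
  have : (l = 2 ∧ d = 5) ∨ (l = 3 ∧ d = 7) ∨ (l = 4 ∧ d = 9) := by omega
  rcases this with ⟨rfl, rfl⟩ | ⟨rfl, rfl⟩ | ⟨rfl, rfl⟩
  · right; left; omega
  · left
    have hm' : m = b 0 + b 1 + b 2 + b 3 := by rw [hm]; simp [Finset.sum_range_succ]
    have := hb 0
    have := hb 3
    have : v = 1 ∨ v = 2 := by omega
    rcases this with rfl | rfl
    · by_cases h2 : 0 < b 2
      · have := Pair 2 0 2 (by omega) (by omega) (by omega) h2 (by omega) (by omega) (by norm_num)
        omega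
      · omega
    · by_cases h2 : 0 < b 1
      · have := Pair 1 3 1 (by omega) (by omega) (by omega) h2 (by omega) (by omega) (by norm_num)
        omega
      · omega
  · left
    have hm' : m = b 0 + b 1 + b 2 + b 3 + b 4 := by rw [hm]; simp [Finset.sum_range_succ]
    have := hb 0
    have := hb 1
    have := hb 4
    have : v = 1 ∨ v = 2 ∨ v = 3 := by omega
    rcases this with rfl | rfl | rfl
    · have := Pair 0 2 3 (by omega) (by omega) (by omega) b0 (by omega) (by omega) (by norm_num)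
      omega
    · by_cases h2 : 0 < b 3
      · have := Pair 3 0 3 (by omega) (by omega) (by omega) h2 (by omega) (by omega) (by norm_num)
        omega
      · omega
    · have := Pair 4 1 2 (by omega) (by omega) (by omega) bl (by omega) (by omega) (by norm_num)
      omega

end Pool.Agent.Lib.MP_7ad46c_co
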