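import Pool.Agent.Lib.MP_7ad46c_co.G.Strip
import Pool.Agent.Lib.MP_7ad46c_co.G.Char
import Pool.Agent.Lib.MP_7ad46c_co.Four
import Pool.Agent.Lib.MP_7ad46c_co.End

/-!
The Fourier step in an arbitrary finite abelian group of odd order.
-/

set_option autoImplicit false

namespace Pool.Agent.Lib.MP_7ad46c_co

open Finset Complex

variable {G : Type} [AddCommGroup G] [DecidableEq G] [Fintype G]

noncomputable def gft (A : Finset G) (ψ : AddChar G ℂ) : ℂ := ∑ a ∈ A, ψ a

lemma gparseval (A : Finset G) :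
    ∑ ψ : AddChar G ℂ, normSq (gft A ψ) = Fintype.card G * #A := by
  have h : ∑ ψ : AddChar G ℂ, (normSq (gft A ψ) : ℂ) = Fintype.card G * #A := by
    have e : ∀ ψ : AddChar G ℂ, (normSq (gft A ψ) : ℂ) = ∑ a ∈ A, ∑ b ∈ A, ψ (a - b) := by
      intro ψ
      rw [← mul_conj]
      unfold gft
      rw [map_sum, sum_mul_sum]
      refine sum_congr rfl fun a _ => sum_congr rfl fun b _ => ?_
      rw [← AddChar.map_neg_eq_conj, ← AddChar.map_add_eq_mul, sub_eq_add_neg]
    simp_rw [e]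
    rw [sum_comm]
    have : ∀ a ∈ A, ∑ ψ : AddChar G ℂ, ∑ b ∈ A, ψ (a - b) = (Fintype.card G : ℂ) := by
      intro a ha
      rw [sum_comm]
      simp_rw [AddChar.sum_apply_eq_ite, sub_eq_zero]
      rw [sum_ite_eq, if_pos ha]
    rw [sum_congr rfl this, sum_const, nsmul_eq_mul, mul_comm]
  exact_mod_cast h

lemma gcubes (h2t : ∀ a b : G, a + a = b + b → a = b) {A : Finset G} {g : G}
    (hg : g ∉ rsum3 A) :
    ∑ ψ : AddChar G ℂ, (gft A ψ ^ 3 * ψ (-g)).re ≤ Fintype.card G * (3 * #A) := by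
  have e : ∀ ψ : AddChar G ℂ, gft A ψ ^ 3 * ψ (-g) =
      ∑ c ∈ A, ∑ a ∈ A, ∑ b ∈ A, ψ (b - (g - c - a)) := by
    intro ψ
    unfold gft
    rw [pow_three, sum_mul_sum, sum_mul, sum_mul]
    refine sum_congr rfl fun c _ => ?_
    rw [mul_sum, sum_mul]
    refine sum_congr rfl fun a _ => ?_
    rw [mul_sum, sum_mul]
    refine sum_congr rfl fun b _ => ?_
    rw [← AddChar.map_add_eq_mul, ← AddChar.map_add_eq_mul, ← AddChar.map_add_eq_mul]
    congr 1; abel
  have h : ∑ ψ : AddChar G ℂ, gft A ψ ^ 3 * ψ (-g) =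
      ((Fintype.card G * ∑ c ∈ A, #{a ∈ A | g - c - a ∈ A} : ℕ) : ℂ) := by
    simp_rw [e]
    rw [sum_comm]
    push_cast
    rw [mul_sum]
    refine sum_congr rfl fun c _ => ?_
    rw [sum_comm, card_filter]
    push_cast
    rw [mul_sum]
    refine sum_congr rfl fun a _ => ?_
    rw [sum_comm]
    simp_rw [AddChar.sum_apply_eq_ite, sub_eq_zero]
    rw [sum_ite_eq']
    split_ifs <;> simp
  rw [← re_sum, h, natCast_re]
  have : ∑ c ∈ A, #{a ∈ A | g - c - a ∈ A} ≤ 3 * #A := by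
    refine (sum_le_sum fun c hc => greps_three h2t hg hc).trans ?_
    rw [sum_const, smul_eq_mul, mul_comm]
  exact_mod_cast Nat.mul_le_mul_left _ this

theorem gfourier {n : ℕ} (hn : Fintype.card G = n) (h2t : ∀ a b : G, a + a = b + b → a = b)
    {A : Finset G} {g : G} (hg : g ∉ rsum3 A) (h0 : 0 < #A) (h1 : #A < n) :
    ∃ ψ : AddChar G ℂ, ψ ≠ 0 ∧ gft A ψ ≠ 0 ∧ ((#A : ℝ) ^ 2 - 3 * n) * normSq (gft A ψ) ≤
        ((n : ℝ) - #A) * (-(gft A ψ ^ 3 * ψ (-g)).re) := by
  classical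
  by_contra hcon
  simp only [not_exists, not_and, not_le] at hcon
  have p1 := gparseval A
  have p2 := gcubes h2t hg
  have f0 : gft A 0 = (#A : ℝ) := by simp [gft]
  rw [← add_sum_erase _ _ (mem_univ 0), f0, hn] at p1 p2
  rw [normSq_ofReal] at p1
  have e : ((((#A : ℝ) : ℂ)) ^ 3 * (0 : AddChar G ℂ) (-g)).re = (#A : ℝ) ^ 3 := by
    rw [AddChar.zero_apply, mul_one, ← ofReal_pow, ofReal_re]
  rw [e] at p2
  have m0 : (0 : ℝ) < #A := by exact_mod_cast h0
  have m1 : (#A : ℝ) < n := by exact_mod_cast h1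
  have hex : ∃ j ∈ (univ : Finset (AddChar G ℂ)).erase 0, gft A j ≠ 0 := by
    by_contra hc
    simp only [not_exists, not_and, not_not] at hc
    rw [sum_eq_zero fun j hj => by rw [hc j hj, map_zero]] at p1
    nlinarith
  obtain ⟨j0, hj0, hj1⟩ := hex
  have := sum_lt_sum (s := (univ : Finset (AddChar G ℂ)).erase 0)
    (f := fun j => ((n : ℝ) - #A) * (-(gft A j ^ 3 * j (-g)).re))
    (g := fun j => ((#A : ℝ) ^ 2 - 3 * n) * normSq (gft A j)) (fun j hj => by
      by_cases hz : gft A j = 0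
      · simp [hz]
      · exact (hcon j (ne_of_mem_erase hj) hz).le) ⟨j0, hj0, hcon j0 (ne_of_mem_erase hj0) hj1⟩
  rw [← mul_sum, ← mul_sum, sum_neg_distrib] at this
  have p3 : ∑ j ∈ (univ : Finset (AddChar G ℂ)).erase 0, normSq (gft A j)
      = n * #A - #A * #A := by
    linarith
  rw [p3] at this
  have p4 := mul_le_mul_of_nonneg_left p2 (sub_nonneg.2 m1.le)
  nlinarith

open Chk

omit [DecidableEq G] [Fintype G] in
lemma gprof_sum {d r : ℕ} [NeZero d] (π : G →+ ZMod d) (A : Finset G) :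
    ∑ x ∈ A, ez d (3 * gfib π x + r) = -(⟨PX d r (gcnt π A), PY d r (gcnt π A)⟩ : ℂ) := by
  have e : ∑ x ∈ A, ez d (3 * gfib π x + r)
      = ∑ p ∈ range d, (gcnt π A p : ℂ) * ez d (3 * p + r) := by
    rw [← sum_fiberwise_of_maps_to (g := gfib π) (t := range d)
      (fun x _ => mem_range.2 (gfib_lt π x))]
    refine sum_congr rfl fun p _ => ?_
    rw [sum_congr rfl (g := fun _ => ez d (3 * p + r)) fun x hx => by
      rw [← (mem_filter.1 hx).2], sum_const, nsmul_eq_mul]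
    rfl
  rw [e]
  apply Complex.ext
  · simp only [re_sum, neg_re, PX, ← sum_neg_distrib, mul_re, natCast_re, natCast_im, ez_re]
    exact sum_congr rfl fun p _ => by ring
  · simp only [im_sum, neg_im, PY, ← sum_neg_distrib, mul_im, natCast_re, natCast_im, ez_im]
    exact sum_congr rfl fun p _ => by ring

lemma gfib_of_surj {d h : ℕ} [NeZero d] {π : G →+ ZMod d} (hπ : Function.Surjective π)
    (hG : Fintype.card G = d * h) : GFib π h := by
  intro S p hS
  rw [← card_fib π hπ hG (p : ZMod d)]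
  refine card_le_card fun x hx => mem_filter.2 ⟨mem_univ x, ?_⟩
  rw [← hS x hx, gfib, ZMod.natCast_zmod_val]

theorem gexists_prof {n : ℕ} (hG : Fintype.card G = n) (hn : 17 ≤ n)
    (h2t : ∀ a b : G, a + a = b + b → a = b) {A : Finset G}
    {g : G} (hg : g ∉ rsum3 A) (hA : n + 8 ≤ 3 * #A) :
    ∃ (d h r : ℕ) (_ : NeZero d) (π : G →+ ZMod d) (t : G), n = d * h ∧ 1 < d ∧ r ≤ 2 ∧
      Function.Surjective π ∧ Prof d h r (gcnt π (A.image fun x => x + t)) #A := by
  have hlt : #A < n := by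
    have := bd_half h2t hg
    omega
  obtain ⟨ψ, hj0, hj1, hj2⟩ := gfourier hG h2t hg (by omega) hlt
  obtain ⟨d, hdψ⟩ : ∃ d, addOrderOf ψ = d := ⟨_, rfl⟩
  have hd0 : 0 < d := hdψ ▸ addOrderOf_pos ψ
  have hd1 : 1 < d := by
    by_contra hc
    exact hj0 (AddMonoid.addOrderOf_eq_one_iff.1 (by omega))
  have : NeZero d := ⟨hd0.ne'⟩
  obtain ⟨π, hπ, hψ⟩ := gchar ψ hdψ
  have hd : n = d * Nat.card π.ker := by rw [← gcard_ker hπ, Nat.card_eq_fintype_card, hG]
  generalize Nat.card π.ker = h at hd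
  have hF := gfib_of_surj hπ (hG.trans hd)
  have hch : ∀ x, ψ x = ez d (3 * gfib π x) := fun x => by
    have h1 := char_eq (n := d) (d := d) (h := 1) (mul_one d).symm (π x)
    rw [Nat.cast_one, one_mul] at h1
    rw [hψ, h1, gfib]
  set γ := gfib π g with hγ
  have eS : gft A ψ = ∑ a ∈ A, ez d (3 * gfib π a) := sum_congr rfl fun a _ => hch a
  have eG : ψ (-g) * ez d (3 * γ) = 1 := by
    rw [← hch, ← AddChar.map_add_eq_mul, neg_add_cancel, AddChar.map_zero_eq_one]
  set S := gft A ψ with hS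
  have cube : ∀ w, (w + γ) % d = 0 → (S * ez d w) ^ 3 = S ^ 3 * ψ (-g) := by
    intro w hw
    obtain ⟨q, hq⟩ := Nat.dvd_of_mod_eq_zero hw
    have e1 : ez d w ^ 3 * ez d (3 * γ) = 1 := by
      rw [pow_three, ← ez_add, ← ez_add, ← ez_add, show w + (w + w) + 3 * γ = 3 * d * q by
        rw [mul_assoc, ← hq]; ring, ez_per hd0]
    rw [mul_pow]
    linear_combination S ^ 3 * (ψ (-g) * e1 - ez d w ^ 3 * eG)
  have m1 : (#A : ℝ) < n := by exact_mod_cast hlt
  have m2 : (0 : ℝ) < (#A : ℝ) ^ 2 - 3 * n := by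
    have := beta_gen hA hlt
    have a1 : (17 : ℝ) ≤ n := by exact_mod_cast hn
    have := mul_pos (show (0 : ℝ) < (n - 7) / 6 by linarith) (sub_pos.2 m1)
    linarith
  have hneg : (S ^ 3 * ψ (-g)).re < 0 := by
    have := mul_pos m2 (normSq_pos.2 hj1)
    by_contra hc
    have := mul_nonneg (sub_pos.2 m1).le (not_lt.1 hc)
    linarith
  have w0 : ((3 * d - 1) * γ + γ) % d = 0 := by
    rw [← add_one_mul, Nat.sub_add_cancel (by omega), mul_comm 3 d, mul_assoc, Nat.mul_mod_right]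
  obtain ⟨w, hw1, hw2⟩ : ∃ w, (w + γ) % d = 0 ∧ (S * ez d w).re < 0 := by
    rcases exists_rot (S := S * ez d ((3 * d - 1) * γ)) (ez_third hd0)
      (by rw [cube _ w0]; exact hneg) with h1 | h1 | h1
    · exact ⟨_, w0, h1⟩
    · refine ⟨(3 * d - 1) * γ + d, ?_, by rwa [ez_add, ← mul_assoc]⟩
      rw [add_right_comm, Nat.add_mod_right, w0]
    · refine ⟨(3 * d - 1) * γ + d + d, ?_, by rwa [ez_add, ez_add, ← mul_assoc, ← mul_assoc]⟩
      rw [add_right_comm, Nat.add_mod_right, add_right_comm, Nat.add_mod_right, w0]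
  obtain ⟨t, ht⟩ := hπ ((w / 3 : ℕ) : ZMod d)
  have ht' : gfib π t = w / 3 % d := by rw [gfib, ht, ZMod.val_natCast]
  refine ⟨d, h, w % 3, this, π, t, hd, hd1, by omega, hπ, ?_⟩
  have hinj : Function.Injective fun x : G => x + t := add_left_injective t
  have hg' := gshift_miss t hg
  have eZ := gprof_sum (r := w % 3) π (A.image fun x => x + t)
  rw [sum_image fun x _ y _ hxy => hinj hxy] at eZ
  have eZ' : ∑ x ∈ A, ez d (3 * gfib π (x + t) + w % 3) = S * ez d w := by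
    rw [eS, sum_mul]
    refine sum_congr rfl fun a _ => ?_
    rw [gfib_add, ht', Nat.add_mod_mod, ez_mod hd0, ← ez_add]
    congr 1; omega
  rw [eZ'] at eZ
  have hc3 := cube w hw1
  have hns : normSq S = normSq (S * ez d w) := by
    rw [map_mul, normSq_eq_norm_sq (ez d w), norm_ez]; ring
  rw [← hc3, hns, eZ] at hj2
  rw [eZ] at hw2
  refine ⟨fun i _ => hF _ i fun x hx => (mem_filter.1 hx).2,
    fun c i j _ hi _ hc hs => gcnt_pair hF h2t hg' ?_ c i j hi hc hs, ?_, hd ▸ hA, hd ▸ hlt,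
    by simpa using hw2, ?_⟩
  · have h1 : π (g + (t + t + t)) = ((γ + 3 * (w / 3) : ℕ) : ZMod d) := by
      rw [map_add, map_add, map_add, ht, hγ, gfib]
      push_cast
      rw [ZMod.natCast_zmod_val]
      ring
    rw [gfib, h1, ZMod.val_natCast, Nat.mod_add_mod, ← hw1]
    congr 1; omega
  · rw [← card_image_of_injective A hinj]
    exact (card_eq_sum_card_fiberwise (f := gfib π) (t := range d)
      fun x _ => mem_range.2 (gfib_lt π x)).symm
  · rw [← hd]
    generalize PX d (w % 3) (gcnt π (A.image fun x => x + t)) = X at *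
    generalize PY d (w % 3) (gcnt π (A.image fun x => x + t)) = Y at *
    simp only [pow_three, normSq_apply, mul_re, mul_im, neg_re, neg_im] at hj2
    linarith

end Pool.Agent.Lib.MP_7ad46c_co
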