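import Pool.Agent.Lib.MP_7ad46c_co.G.Strip
import Pool.Agent.Lib.MP_7ad46c_co.G.Char
import Pool.Agent.Lib.MP_7ad46c_co.Lower

/-! Large sets that miss a restricted triple sum, in an arbitrary finite abelian group. -/

set_option autoImplicit false

namespace Pool.Agent.Lib.MP_7ad46c_co

open Finset

/-- some set with `3 |A| ≥ c` misses a restricted triple sum -/
def GHas (G : Type) [AddCommGroup G] (c : ℕ) : Prop :=
  ∃ (A : Finset G) (g : G), c ≤ 3 * A.card ∧ g ∉ rsum3 A

lemma gmiss_map {H G : Type} [AddCommGroup H] [AddCommGroup G] [DecidableEq G] (φ : H →+ G)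
    (hφ : Function.Injective φ) {B : Finset H} {g : H} (hg : g ∉ rsum3 B) {x : G}
    (hx : x + x + x = 0) : φ g ∉ rsum3 (B.image fun b => φ b + x) := by
  rintro ⟨a, ha, b, hb, c, hc, h1, h2, h3, h4⟩
  obtain ⟨a, ha', rfl⟩ := mem_image.1 ha
  obtain ⟨b, hb', rfl⟩ := mem_image.1 hb
  obtain ⟨c, hc', rfl⟩ := mem_image.1 hc
  refine hg ⟨a, ha', b, hb', c, hc', fun h => h1 (by rw [h]), fun h => h2 (by rw [h]),
    fun h => h3 (by rw [h]), hφ ?_⟩
  rw [← h4, map_add, map_add, ← add_zero (φ a + φ b + φ c), ← hx]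
  abel

lemma gcard_map {H G : Type} [AddCommGroup H] [AddCommGroup G] [DecidableEq G] (φ : H →+ G)
    (hφ : Function.Injective φ) (B : Finset H) (x : G) :
    (B.image fun b => φ b + x).card = B.card :=
  card_image_of_injective _ fun _ _ h => hφ (add_right_cancel h)

lemma GHas.map {H G : Type} [AddCommGroup H] [AddCommGroup G] {c : ℕ} (h : GHas H c)
    (φ : H →+ G) (hφ : Function.Injective φ) : GHas G c := by
  classical
  obtain ⟨B, g, h1, h2⟩ := h
  exact ⟨_, φ g, by rwa [gcard_map φ hφ B 0], gmiss_map φ hφ h2 (by simp)⟩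

section quot

variable {G : Type} [AddCommGroup G] [Fintype G] [DecidableEq G] {d : ℕ} [NeZero d]
  {π : G →+ ZMod d}

lemma gcard_strip (hπ : Function.Surjective π) (u v : ℕ) (hv : v ≤ d) :
    (univ.filter fun a : G => gfib π a ∈ Ico u v).card = (v - u) * Nat.card π.ker := by
  have cF := card_fib π hπ (Nat.card_eq_fintype_card.symm.trans (gcard_ker hπ))
  rw [card_eq_sum_card_fiberwise (f := gfib π) (t := Ico u v)
    (s := univ.filter fun a : G => gfib π a ∈ Ico u v)
    (fun a ha => (mem_filter.1 ha).2), ← Nat.card_Ico, ← smul_eq_mul, ← sum_const]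
  refine sum_congr rfl fun t ht => ?_
  rw [← cF (t : ZMod d)]
  congr 1
  ext a
  have h1 := (mem_Ico.1 ht).2
  simp only [mem_filter, mem_univ, true_and]
  constructor
  · rintro ⟨-, h⟩
    rw [← h, gfib, ZMod.natCast_zmod_val]
  · intro h
    have h2 : gfib π a = t := by rw [gfib, h, ZMod.val_cast_of_lt (by omega)]
    exact ⟨h2 ▸ ht, h2⟩

omit [Fintype G] [DecidableEq G] in
lemma gsum3 {a b c g : G} (h : a + b + c = g) :
    (gfib π a + gfib π b + gfib π c) % d = gfib π g := by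
  rw [← h, gfib_add, gfib_add, Nat.mod_add_mod]

omit [Fintype G] [DecidableEq G] [NeZero d] in
lemma gfib_ker (b : π.ker) (x : G) : gfib π (π.ker.subtype b + x) = gfib π x := by
  rw [gfib, gfib, map_add, show π (π.ker.subtype b) = 0 from b.2, zero_add]

omit [Fintype G] [DecidableEq G] [NeZero d] in
lemma gfib_zero : gfib π 0 = 0 := by rw [gfib, map_zero, ZMod.val_zero]

lemma glow_periodic (hπ : Function.Surjective π) {k : ℕ} (hd : d + 1 = 3 * k) :
    GHas G (3 * k * Nat.card π.ker) := by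
  have hd0 := NeZero.pos d
  obtain ⟨g, hg⟩ := hπ ((d - 1 : ℕ) : ZMod d)
  refine ⟨univ.filter fun a : G => gfib π a ∈ Ico 0 k, g, ?_, ?_⟩
  · rw [gcard_strip hπ 0 k (by omega), Nat.sub_zero, mul_assoc]
  · rintro ⟨a, ha, b, hb, c, hc, -, -, -, h⟩
    have h1 := gsum3 (π := π) h
    have h2 : gfib π g = d - 1 := by rw [gfib, hg, ZMod.val_cast_of_lt (by omega)]
    simp only [mem_filter, mem_univ, true_and, mem_Ico] at ha hb hc
    rw [Nat.mod_eq_of_lt (by omega)] at h1
    omega

lemma glow_peel (hπ : Function.Surjective π) {l c : ℕ} (hd : d = 3 * l + 1)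
    (h : GHas π.ker c) : GHas G (c + 3 * l * Nat.card π.ker) := by
  obtain ⟨B, g, h1, h2⟩ := h
  have hi := π.ker.subtype_injective
  have m0 : ∀ a ∈ B.image fun b => π.ker.subtype b + 0, gfib π a = 0 := fun a ha => by
    obtain ⟨b, -, rfl⟩ := mem_image.1 ha
    rw [gfib_ker, gfib_zero]
  refine ⟨(B.image fun b => π.ker.subtype b + 0) ∪
    univ.filter fun a : G => gfib π a ∈ Ico 1 (l + 1), π.ker.subtype g, ?_, ?_⟩
  · rw [card_union_of_disjoint (disjoint_left.2 fun a ha hb => by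
      have := m0 a ha
      have := (mem_Ico.1 (mem_filter.1 hb).2).1
      omega), gcard_map _ hi, gcard_strip hπ 1 (l + 1) (by omega), Nat.add_sub_cancel, mul_add,
      mul_assoc]
    omega
  · rintro ⟨a, ha, b, hb, c, hc, n1, n2, n3, h⟩
    have key : ∀ a ∈ (B.image fun b => π.ker.subtype b + 0) ∪
        univ.filter fun a : G => gfib π a ∈ Ico 1 (l + 1), gfib π a ≤ l ∧
        (gfib π a = 0 → a ∈ B.image fun b => π.ker.subtype b + 0) := fun a ha => by
      rcases mem_union.1 ha with h | h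
      · exact ⟨by have := m0 a h; omega, fun _ => h⟩
      · have := mem_Ico.1 (mem_filter.1 h).2
        exact ⟨by omega, fun _ => by omega⟩
    have h3 := gsum3 (π := π) h
    have h4 := gfib_ker g 0
    rw [add_zero, gfib_zero] at h4
    obtain ⟨a1, a2⟩ := key a ha
    obtain ⟨b1, b2⟩ := key b hb
    obtain ⟨c1, c2⟩ := key c hc
    rw [h4, Nat.mod_eq_of_lt (by omega)] at h3
    exact gmiss_map _ hi h2 (x := 0) (by simp)
      ⟨a, a2 (by omega), b, b2 (by omega), c, c2 (by omega), n1, n2, n3, h⟩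

lemma glow_ends (hπ : Function.Surjective π) {l c : ℕ} (hd : d = 3 * (l + 1)) {x : G}
    (hx : gfib π x = l + 1) (h3x : x + x + x = 0) (h : GHas π.ker c) :
    ∃ b, c ≤ 3 * b ∧ GHas G (6 * b + 3 * l * Nat.card π.ker) := by
  obtain ⟨B, g, h1, h2⟩ := h
  have hi := π.ker.subtype_injective
  have m0 : ∀ a ∈ B.image fun b => π.ker.subtype b + 0, gfib π a = 0 := fun a ha => by
    obtain ⟨b, -, rfl⟩ := mem_image.1 ha
    rw [gfib_ker, gfib_zero]
  have m1 : ∀ a ∈ B.image fun b => π.ker.subtype b + x, gfib π a = l + 1 := fun a ha => by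
    obtain ⟨b, -, rfl⟩ := mem_image.1 ha
    rw [gfib_ker, hx]
  refine ⟨B.card, h1, ((B.image fun b => π.ker.subtype b + 0) ∪
    B.image fun b => π.ker.subtype b + x) ∪
    univ.filter fun a : G => gfib π a ∈ Ico 1 (l + 1), π.ker.subtype g, ?_, ?_⟩
  · rw [card_union_of_disjoint (disjoint_left.2 fun a ha hb => by
      have := mem_Ico.1 (mem_filter.1 hb).2
      rcases mem_union.1 ha with h | h
      · have := m0 a h
        omega
      · have := m1 a h
        omega), card_union_of_disjoint (disjoint_left.2 fun a ha hb => by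
      have := m0 a ha
      have := m1 a hb
      omega), gcard_map _ hi, gcard_map _ hi, gcard_strip hπ 1 (l + 1) (by omega),
      Nat.add_sub_cancel, mul_add, mul_assoc]
    omega
  · rintro ⟨a, ha, b, hb, c, hc, n1, n2, n3, h⟩
    have key : ∀ a ∈ ((B.image fun b => π.ker.subtype b + 0) ∪
        B.image fun b => π.ker.subtype b + x) ∪
        univ.filter fun a : G => gfib π a ∈ Ico 1 (l + 1), gfib π a ≤ l + 1 ∧
        (gfib π a = 0 → a ∈ B.image fun b => π.ker.subtype b + 0) ∧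
        (gfib π a = l + 1 → a ∈ B.image fun b => π.ker.subtype b + x) := fun a ha => by
      rcases mem_union.1 ha with h | h
      · rcases mem_union.1 h with h | h
        · have := m0 a h
          exact ⟨by omega, fun _ => h, fun _ => by omega⟩
        · have := m1 a h
          exact ⟨by omega, fun _ => by omega, fun _ => h⟩
      · have := mem_Ico.1 (mem_filter.1 h).2
        exact ⟨by omega, fun _ => by omega, fun _ => by omega⟩
    have h3 := gsum3 (π := π) h
    have h4 := gfib_ker g 0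
    rw [add_zero, gfib_zero] at h4
    obtain ⟨a1, a2, a3⟩ := key a ha
    obtain ⟨b1, b2, b3⟩ := key b hb
    obtain ⟨c1, c2, c3⟩ := key c hc
    rw [h4] at h3
    by_cases h5 : gfib π a + gfib π b + gfib π c < d
    · rw [Nat.mod_eq_of_lt h5] at h3
      exact gmiss_map _ hi h2 (x := 0) (by simp)
        ⟨a, a2 (by omega), b, b2 (by omega), c, c2 (by omega), n1, n2, n3, h⟩
    · exact gmiss_map _ hi h2 h3x
        ⟨a, a3 (by omega), b, b3 (by omega), c, c3 (by omega), n1, n2, n3, h⟩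

end quot

lemma ghas_cyc {G : Type} [AddCommGroup G] [Finite G] {n c : ℕ} (hG : Nat.card G = n)
    (he : n ∣ AddMonoid.exponent G) (h : GHas (ZMod n) c) : GHas G c := by
  obtain ⟨π, hπ⟩ := gquot he
  have hb : Function.Bijective π :=
    (Nat.bijective_iff_surjective_and_card π).2 ⟨hπ, by rw [hG, Nat.card_zmod]⟩
  exact h.map (AddEquiv.ofBijective π hb).symm.toAddMonoidHom
    (AddEquiv.ofBijective π hb).symm.injective

lemma gprime_mod {n q : ℕ} (hP : ¬ (P2 n).Nonempty) (hq : q.Prime) (h : q ∣ n) :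
    q = 3 ∨ q % 3 = 1 := by
  have h2 : q % 3 ≠ 2 := fun h2 => hP ⟨q, hq, h, h2⟩
  by_cases h0 : q % 3 = 0
  · exact Or.inl ((Nat.prime_dvd_prime_iff_eq Nat.prime_three hq).1 (by omega)).symm
  · omega

lemma gP2_dvd {n h : ℕ} (hP : ¬ (P2 n).Nonempty) (hd : h ∣ n) : ¬ (P2 h).Nonempty :=
  fun ⟨p, a, b, c⟩ => hP ⟨p, a, b.trans hd, c⟩

theorem glow5 (n : ℕ) : ∀ (G : Type) [AddCommGroup G] [Finite G], Nat.card G = n → 3 ≤ n →
    ¬ (P2 n).Nonempty → ¬ 9 ∣ n → GHas G (n + 5) := by
  induction n using Nat.strong_induction_on with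
  | _ n ih =>
    intro G _ _ hG h3 hP h9
    by_cases hp : n.Prime
    · obtain ⟨A, g, h1, h2⟩ := lower_interval n ((n + 7) / 3) (by omega) h3 (by omega)
      exact ghas_cyc hG (gprime_dvd_exp hp (hG ▸ dvd_rfl)) ⟨A, g, by omega, h2⟩
    obtain ⟨q, hq, hqn, hq1⟩ : ∃ q, q.Prime ∧ q ∣ n ∧ q % 3 = 1 := by
      obtain ⟨p, hp1, e, he⟩ := Nat.exists_prime_and_dvd (n := n) (by omega)
      have he1 : e ≠ 1 := fun h => hp (by rw [he, h, mul_one]; exact hp1)
      obtain ⟨p', hp2, hp3⟩ := Nat.exists_prime_and_dvd he1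
      have hp4 : p' ∣ n := hp3.trans (Dvd.intro_left p he.symm)
      rcases gprime_mod hP hp1 ⟨e, he⟩ with h | h
      · rcases gprime_mod hP hp2 hp4 with h' | h'
        · subst h h'
          exact absurd (he ▸ Nat.mul_dvd_mul_left 3 hp3) h9
        · exact ⟨p', hp2, hp4, h'⟩
      · exact ⟨p, hp1, ⟨e, he⟩, h⟩
    classical
    have := Fintype.ofFinite G
    have : NeZero q := ⟨hq.ne_zero⟩
    obtain ⟨π, hπ⟩ := gquot (gprime_dvd_exp hq (hG ▸ hqn))
    have hd := hG.symm.trans (gcard_ker hπ)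
    have hdv : Nat.card π.ker ∣ n := Dvd.intro_left q hd.symm
    have hq2 := hq.two_le
    have hh : 3 ≤ Nat.card π.ker := by
      have a0 : 0 < Nat.card π.ker := Nat.card_pos
      have a1 : Nat.card π.ker ≠ 1 := fun h => hp (by rw [hd, h, mul_one]; exact hq)
      have a2 : Nat.card π.ker ≠ 2 := fun h => hP ⟨2, Nat.prime_two, h ▸ hdv, rfl⟩
      omega
    obtain ⟨l, hl⟩ : ∃ l, q = 3 * l + 1 := ⟨q / 3, by omega⟩
    have h1 := glow_peel hπ hl (ih _ (by nlinarith) π.ker rfl hh (gP2_dvd hP hdv)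
      fun h => h9 (h.trans hdv))
    have h2 : Nat.card π.ker + 5 + 3 * l * Nat.card π.ker = n + 5 := by
      generalize Nat.card π.ker = h at hd
      rw [hd, hl]
      ring
    rwa [h2] at h1

theorem glow9 (n : ℕ) : ∀ (G : Type) [AddCommGroup G] [Finite G], Nat.card G = n →
    ¬ (P2 n).Nonempty → 9 ∣ n → ¬ 27 * AddMonoid.exponent G ∣ n → GHas G (n + 9) := by
  induction n using Nat.strong_induction_on with
  | _ n ih =>
    intro G _ _ hG hP h9 he
    classical
    have := Fintype.ofFinite G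
    by_cases hq : ∃ q, q.Prime ∧ q ∣ n ∧ q % 3 = 1
    · obtain ⟨q, hq, hqn, hq1⟩ := hq
      have : NeZero q := ⟨hq.ne_zero⟩
      obtain ⟨π, hπ⟩ := gquot (gprime_dvd_exp hq (hG ▸ hqn))
      have hd := hG.symm.trans (gcard_ker hπ)
      have hdv : Nat.card π.ker ∣ n := Dvd.intro_left q hd.symm
      have hq2 := hq.two_le
      have a0 : 0 < Nat.card π.ker := Nat.card_pos
      have a1 : 9 ∣ Nat.card π.ker := by
        have h3 : Nat.Coprime 3 q := (Nat.Prime.coprime_iff_not_dvd Nat.prime_three).2 (by omega)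
        exact (Nat.Coprime.pow_left 2 h3).dvd_of_dvd_mul_left (hd ▸ h9)
      have a2 : AddMonoid.exponent G ∣ q * AddMonoid.exponent π.ker := by
        refine AddMonoid.exponent_dvd_of_forall_nsmul_eq_zero fun a => ?_
        have h4 : q • a ∈ π.ker := by
          rw [AddMonoidHom.mem_ker, map_nsmul, nsmul_eq_mul, ZMod.natCast_self, zero_mul]
        rw [mul_nsmul]
        exact congrArg Subtype.val (AddMonoid.exponent_nsmul_eq_zero (⟨q • a, h4⟩ : π.ker))
      obtain ⟨l, hl⟩ : ∃ l, q = 3 * l + 1 := ⟨q / 3, by omega⟩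
      have h1 := glow_peel hπ hl (ih _ (by nlinarith) π.ker rfl (gP2_dvd hP hdv) a1 fun h => he (by
        refine (Nat.mul_dvd_mul_left 27 a2).trans ?_
        rw [mul_left_comm, hd]
        exact Nat.mul_dvd_mul_left q h))
      have h2 : Nat.card π.ker + 9 + 3 * l * Nat.card π.ker = n + 9 := by
        generalize Nat.card π.ker = h at hd
        rw [hd, hl]
        ring
      rwa [h2] at h1
    obtain ⟨d, hde⟩ : ∃ d, AddMonoid.exponent G = d := ⟨_, rfl⟩
    have hd3 : 3 ∣ d := hde ▸ gprime_dvd_exp Nat.prime_three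
      (hG ▸ (show 3 ∣ 9 by norm_num).trans h9)
    have hd0 : 0 < d := hde ▸ AddMonoid.ExponentExists.of_finite.exponent_pos
    have : NeZero d := ⟨hd0.ne'⟩
    obtain ⟨π, hπ⟩ := gquot (G := G) (d := d) (hde ▸ dvd_rfl)
    have hd := hG.symm.trans (gcard_ker hπ)
    have hdv : Nat.card π.ker ∣ n := Dvd.intro_left d hd.symm
    have a0 : 0 < Nat.card π.ker := Nat.card_pos
    have a1 : Nat.card π.ker = 1 ∨ Nat.card π.ker = 3 ∨ Nat.card π.ker = 9 := by
      have h1 := Nat.eq_prime_pow_of_unique_prime_dvd (p := 3) a0.ne' fun {p} hp h =>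
        (gprime_mod hP hp (h.trans hdv)).resolve_right fun h' => hq ⟨p, hp, h.trans hdv, h'⟩
      generalize (Nat.card π.ker).primeFactorsList.length = j at h1
      have h2 : j < 3 := by
        by_contra hc
        refine he ?_
        rw [hde, hd, mul_comm 27 d, h1]
        exact Nat.mul_dvd_mul_left d (pow_dvd_pow 3 (not_lt.1 hc))
      interval_cases j <;> omega
    obtain ⟨l, hl⟩ : ∃ l, d = 3 * (l + 1) := ⟨d / 3 - 1, by omega⟩
    obtain ⟨y, hy⟩ := hπ 1
    have hx : gfib π ((l + 1) • y) = l + 1 := by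
      rw [gfib, map_nsmul, hy, nsmul_one, ZMod.val_cast_of_lt (by omega)]
    have h3x : (l + 1) • y + (l + 1) • y + (l + 1) • y = 0 := by
      rw [← add_nsmul, ← add_nsmul, show l + 1 + (l + 1) + (l + 1) = d by omega, ← hde,
        AddMonoid.exponent_nsmul_eq_zero]
    rcases a1 with a1 | a1 | a1
    · obtain ⟨k, hk⟩ := h9
      have hn : n = 3 * k * 3 := by omega
      obtain ⟨A, g, h1, h2⟩ := lower_nine k (by rw [a1] at hd; omega)
      refine ghas_cyc (hG.trans hn) ?_ ⟨A, g, by omega, h2⟩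
      rw [hde, ← hn, hd, a1, mul_one]
    · obtain ⟨b, hb, A, g, h1, h2⟩ := glow_ends hπ hl hx h3x
        (glow5 3 π.ker a1 le_rfl (gP2_dvd hP (a1 ▸ hdv)) (by norm_num))
      rw [a1] at hd h1
      exact ⟨A, g, by omega, h2⟩
    · have e0 : 0 < AddMonoid.exponent π.ker := AddMonoid.ExponentExists.of_finite.exponent_pos
      obtain ⟨b, hb, A, g, h1, h2⟩ := glow_ends hπ hl hx h3x
        (ih 9 (by rw [a1] at hd; omega) π.ker a1 (gP2_dvd hP h9) dvd_rfl fun h => by
          have := Nat.le_of_dvd (by norm_num) h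
          omega)
      rw [a1] at hd h1
      exact ⟨A, g, by omega, h2⟩

theorem glower {G : Type} [AddCommGroup G] [Finite G] {n : ℕ} (hG : Nat.card G = n) (hn : 16 ≤ n)
    (h : (P2 n).Nonempty ∨ ¬ 27 * AddMonoid.exponent G ∣ n) :
    ∃ (A : Finset G) (g : G), f n ≤ A.card + 1 ∧ g ∉ rsum3 A := by
  by_cases hP : (P2 n).Nonempty
  · obtain ⟨p, q, -, hp, h3, hq, -, hf⟩ := f_typeI hP
    have hpe := gprime_dvd_exp (G := G) hp (hG ▸ ⟨q, hq⟩)
    by_cases h1 : q = 1 ∨ q = 3
    · obtain ⟨A, g, h4, h5⟩ := lower n hn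
      obtain ⟨A', g', h6, h7⟩ := ghas_cyc hG (c := 3 * A.card) (by
        rcases h1 with rfl | rfl
        · rwa [hq, mul_one]
        · rw [hq]
          exact Nat.Coprime.mul_dvd_of_dvd_of_dvd
            ((Nat.coprime_primes hp Nat.prime_three).2 (by omega)) hpe
            (gprime_dvd_exp Nat.prime_three (hG ▸ Dvd.intro_left p hq.symm))) ⟨A, g, le_rfl, h5⟩
      exact ⟨A', g', by omega, h7⟩
    · classical
      have := Fintype.ofFinite G
      have : NeZero p := ⟨hp.ne_zero⟩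
      rw [if_neg (by omega), if_neg (by omega)] at hf
      obtain ⟨k, hk⟩ : ∃ k, p + 1 = 3 * k := ⟨(p + 1) / 3, by omega⟩
      obtain ⟨π, hπ⟩ := gquot hpe
      have hd : Nat.card π.ker = q :=
        Nat.eq_of_mul_eq_mul_left hp.pos ((gcard_ker hπ).symm.trans (hG.trans hq))
      obtain ⟨A, g, h4, h5⟩ := glow_periodic hπ hk
      rw [hd, ← hk, add_mul, one_mul, ← hq] at h4
      exact ⟨A, g, by omega, h5⟩
  · obtain ⟨h1, h2⟩ := f_typeII hP
    by_cases h9 : 9 ∣ n
    · obtain ⟨A, g, h4, h5⟩ := glow9 n G hG hP h9 (h.resolve_left hP)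
      rw [if_pos h9] at h2
      exact ⟨A, g, by omega, h5⟩
    · obtain ⟨A, g, h4, h5⟩ := glow5 n G hG (by omega) hP h9
      rw [if_neg h9] at h2
      exact ⟨A, g, by omega, h5⟩

end Pool.Agent.Lib.MP_7ad46c_co
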