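import Pool.Agent.Lib.MP_7ad46c_co.Strip

/-!
Fibres over a cyclic quotient, the pairing constraint and the strip argument, for an arbitrary
finite abelian group without 2-torsion.
-/

set_option autoImplicit false

namespace Pool.Agent.Lib.MP_7ad46c_co

open Finset

variable {G : Type} [AddCommGroup G] [DecidableEq G] {d : ℕ} [NeZero d]

def gfib (π : G →+ ZMod d) (x : G) : ℕ := (π x).val

def gcnt (π : G →+ ZMod d) (A : Finset G) (p : ℕ) : ℕ := #{x ∈ A | gfib π x = p}

/-- every fibre of `π` has at most `h` elements -/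
def GFib (π : G →+ ZMod d) (h : ℕ) : Prop :=
  ∀ (S : Finset G) (p : ℕ), (∀ x ∈ S, gfib π x = p) → #S ≤ h

omit [DecidableEq G] in
lemma gfib_lt (π : G →+ ZMod d) (x : G) : gfib π x < d := ZMod.val_lt _

omit [DecidableEq G] in
lemma gfib_add (π : G →+ ZMod d) (x y : G) : gfib π (x + y) = (gfib π x + gfib π y) % d := by
  unfold gfib
  rw [map_add, ZMod.val_add]

omit [DecidableEq G] in
lemma gfib_sub (π : G →+ ZMod d) {x y : G} {k : ℕ} (hk : k < d)
    (h : (k + gfib π y) % d = gfib π x) : gfib π (x - y) = k := by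
  have h1 := gfib_add π (x - y) y
  rw [sub_add_cancel, ← h] at h1
  exact ((Nat.ModEq.add_right_cancel' (gfib π y) h1).eq_of_lt_of_lt hk (gfib_lt π _)).symm

omit [DecidableEq G] [NeZero d] in
lemma gcard_win {π : G →+ ZMod d} {h l : ℕ} (hF : GFib π h) (S : Finset G) (T : Finset ℕ)
    (hT : #T = l) (hS : ∀ x ∈ S, gfib π x ∈ T) : #S ≤ l * h := by
  have := card_le_mul_card_image_of_maps_to hS h fun p _ =>
    hF _ p fun x hx => (mem_filter.1 hx).2
  rwa [hT, mul_comm] at this

lemma greps_le (h2t : ∀ a b : G, a + a = b + b → a = b) {A : Finset G} {g c : G}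
    (hg : g ∉ rsum3 A) (hc : c ∈ A) (S : Finset G) (hS : ∀ x ∈ S, x ∈ A ∧ g - c - x ∈ A)
    (P1 P2 P3 : Prop) [Decidable P1] [Decidable P2] [Decidable P3]
    (h1 : c ∈ S → P1) (h2 : ∀ x ∈ S, g - c - x = c → P2) (h3 : ∀ x ∈ S, x = g - c - x → P3) :
    #S ≤ (if P1 then 1 else 0) + (if P2 then 1 else 0) + (if P3 then 1 else 0) := by
  have hsub : S ⊆ ({x ∈ S | x = c} ∪ {x ∈ S | g - c - x = c}) ∪ {x ∈ S | x = g - c - x} := by
    intro x hx
    simp only [mem_union, mem_filter]
    rcases coll hg (hS x hx).1 (hS x hx).2 hc (by abel) with h | h | h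
    · exact Or.inr ⟨hx, h⟩
    · exact Or.inl (Or.inl ⟨hx, h⟩)
    · exact Or.inl (Or.inr ⟨hx, h⟩)
  refine (card_le_card hsub).trans ((card_union_le _ _).trans (Nat.add_le_add
    ((card_union_le _ _).trans (Nat.add_le_add ?_ ?_)) ?_))
  · refine card_ind _ _ (fun x hx => ?_) fun x hx y hy => ?_
    · rw [mem_filter] at hx; exact h1 (hx.2 ▸ hx.1)
    · rw [mem_filter] at hx hy; rw [hx.2, hy.2]
  · refine card_ind _ _ (fun x hx => ?_) fun x hx y hy => ?_
    · rw [mem_filter] at hx; exact h2 x hx.1 hx.2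
    · rw [mem_filter] at hx hy; exact sub_right_injective (hx.2.trans hy.2.symm)
  · refine card_ind _ _ (fun x hx => ?_) fun x hx y hy => ?_
    · rw [mem_filter] at hx; exact h3 x hx.1 hx.2
    · rw [mem_filter] at hx hy
      exact h2t x y ((eq_sub_iff_add_eq.1 hx.2).trans (eq_sub_iff_add_eq.1 hy.2).symm)

lemma greps_three (h2t : ∀ a b : G, a + a = b + b → a = b) {A : Finset G} {g c : G}
    (hg : g ∉ rsum3 A) (hc : c ∈ A) : #{x ∈ A | g - c - x ∈ A} ≤ 3 := by
  have := greps_le h2t hg hc {x ∈ A | g - c - x ∈ A} (fun x hx => mem_filter.1 hx) True True True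
    (fun _ => trivial) (fun _ _ _ => trivial) (fun _ _ _ => trivial)
  simpa using this

lemma gcnt_pair {π : G →+ ZMod d} {h r : ℕ} (hF : GFib π h)
    (h2t : ∀ a b : G, a + a = b + b → a = b) {A : Finset G}
    {g : G} (hg : g ∉ rsum3 A) (hr : (gfib π g + r) % d = 0) (c i j : ℕ) (hi : i < d)
    (hc : 1 ≤ gcnt π A c) (hs : (i + j + c + r) % d = 0) :
    gcnt π A i + gcnt π A j ≤
      h + (if i = c then 1 else 0) + (if j = c then 1 else 0) + (if i = j then 1 else 0) := by
  obtain ⟨c0, hc0⟩ := card_pos.1 hc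
  rw [mem_filter] at hc0
  have hinj : Function.Injective fun y : G => g - c0 - y := sub_right_injective
  have e1 := card_union_add_card_inter {x ∈ A | gfib π x = i}
    (({x ∈ A | gfib π x = j}).image fun y => g - c0 - y)
  rw [card_image_of_injective _ hinj] at e1
  have e2 : #({x ∈ A | gfib π x = i} ∪ ({x ∈ A | gfib π x = j}).image fun y => g - c0 - y)
      ≤ h := by
    refine hF _ i fun x hx => ?_
    rcases mem_union.1 hx with h1 | h1
    · exact (mem_filter.1 h1).2
    · obtain ⟨y, hy, rfl⟩ := mem_image.1 h1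
      have a1 := gfib_add π (g - c0 - y + y) c0
      rw [gfib_add π (g - c0 - y) y, (mem_filter.1 hy).2, hc0.2,
        show g - c0 - y + y + c0 = g by abel, Nat.mod_add_mod] at a1
      rw [a1, Nat.mod_add_mod] at hr
      refine mod_cancel (z := j + c + r) (gfib_lt π _) hi ?_ ?_
      · rw [← hr]; congr 1; ring
      · rw [← hs]; congr 1; ring
  have e4 : ∀ x ∈ ({x ∈ A | gfib π x = i} ∩ ({x ∈ A | gfib π x = j}).image fun y => g - c0 - y),
      (x ∈ A ∧ g - c0 - x ∈ A) ∧ gfib π x = i ∧ gfib π (g - c0 - x) = j := by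
    intro x hx
    rw [mem_inter, mem_filter] at hx
    obtain ⟨y, hy, rfl⟩ := mem_image.1 hx.2
    rw [mem_filter] at hy
    rw [sub_sub_cancel]
    exact ⟨⟨hx.1.1, hy.1⟩, hx.1.2, hy.2⟩
  have e3 := greps_le h2t hg hc0.1 _ (fun x hx => (e4 x hx).1) (i = c) (j = c) (i = j)
    (fun h1 => (e4 _ h1).2.1.symm.trans hc0.2)
    (fun x hx h1 => by rw [← (e4 x hx).2.2, h1, hc0.2])
    (fun x hx h1 => by rw [← (e4 x hx).2.2, ← h1, (e4 x hx).2.1])
  unfold gcnt
  omega

theorem gstrip {π : G →+ ZMod d} {h l : ℕ} (hF : GFib π h)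
    (h2t : ∀ a b : G, a + a = b + b → a = b) {A : Finset G}
    {g x1 : G} (hg : g ∉ rsum3 A) (h0 : 0 ∈ A) (h1 : x1 ∈ A) (hl : gfib π x1 = l)
    (hA : ∀ a ∈ A, gfib π a ≤ l) (hm : (l + 2) * h + 7 ≤ 2 * #A) : 2 * l < d := by
  by_contra hcon
  have hld : l < d := hl ▸ gfib_lt π x1
  have hQ : ∀ S : Finset G, (∀ x ∈ S, gfib π x < l) → #S ≤ l * h := fun S hS =>
    gcard_win hF S (range l) (card_range l) fun x hx => mem_range.2 (hS x hx)
  set B := {x ∈ A | gfib π x < l} with hB
  have hB1 : #A ≤ #B + h := by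
    have a1 := card_filter_add_card_filter_not (s := A) (fun x => gfib π x < l)
    have a2 := hF {x ∈ A | ¬ gfib π x < l} l fun x hx => by
      rw [mem_filter] at hx
      have := hA x hx.1
      omega
    rw [← hB] at a1
    omega
  have hm' : l * h + 2 * h + 7 ≤ 2 * #A := by rw [← add_mul]; exact hm
  have claim : ∀ q : G, gfib π q < l → g - q ∈ A → g - (q + x1) ∈ A → False := by
    intro q hq c1 c2
    let ρ : G → G := fun z => if gfib π z ≤ gfib π q then q - z else q + x1 - z
    have f1 : ∀ z, gfib π z ≤ gfib π q → gfib π (q - z) = gfib π q - gfib π z := fun z hz =>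
      gfib_sub π (by omega) (by rw [Nat.sub_add_cancel hz, Nat.mod_eq_of_lt (by omega)])
    have f2 : ∀ z, gfib π z < l → ¬ gfib π z ≤ gfib π q →
        gfib π (q + x1 - z) = gfib π q + l - gfib π z := fun z hz hz' =>
      gfib_sub π (by omega) (by rw [Nat.sub_add_cancel (by omega), gfib_add, hl])
    have hinj : Set.InjOn ρ B := by
      intro z hz w hw hzw
      have hz' := (mem_filter.1 hz).2
      have hw' := (mem_filter.1 hw).2
      simp only [ρ] at hzw
      split_ifs at hzw with a1 a2 a2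
      · exact sub_right_injective hzw
      · have := f1 z a1
        rw [hzw, f2 w hw' a2] at this
        omega
      · have := f1 w a2
        rw [← hzw, f2 z hz' a1] at this
        omega
      · exact sub_right_injective hzw
    have e1 := card_union_add_card_inter B (B.image ρ)
    rw [card_image_of_injOn hinj] at e1
    have e2 := hQ (B ∪ B.image ρ) fun x hx => by
      rcases mem_union.1 hx with a1 | a1
      · exact (mem_filter.1 a1).2
      · obtain ⟨z, hz, rfl⟩ := mem_image.1 a1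
        have hz' := (mem_filter.1 hz).2
        simp only [ρ]
        split_ifs with a2
        · rw [f1 z a2]; omega
        · rw [f2 z hz' a2]; omega
    have e3 : B ∩ B.image ρ ⊆
        {x ∈ A | g - (g - q) - x ∈ A} ∪ {x ∈ A | g - (g - (q + x1)) - x ∈ A} := by
      intro x hx
      rw [mem_inter] at hx
      obtain ⟨z, hz, rfl⟩ := mem_image.1 hx.2
      have a1 := (mem_filter.1 hx.1).1
      have a2 := (mem_filter.1 hz).1
      rw [mem_union, mem_filter, mem_filter, sub_sub_cancel, sub_sub_cancel]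
      simp only [ρ] at a1 ⊢
      split_ifs at a1 ⊢
      · left; exact ⟨a1, by rwa [sub_sub_cancel]⟩
      · right; exact ⟨a1, by rwa [sub_sub_cancel]⟩
    have e4 := (card_le_card e3).trans (card_union_le _ _)
    have e5 := greps_three h2t hg c1
    have e6 := greps_three h2t hg c2
    omega
  let τ : G → G := fun c => if gfib π (g - c) < l then g - c else g - c - x1
  have f3 : ∀ c, gfib π (τ c) < l := by
    intro c
    simp only [τ]
    split_ifs with a1
    · exact a1
    · have a2 := gfib_lt π (g - c)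
      rw [gfib_sub (k := gfib π (g - c) - l) π (by omega)
        (by rw [hl, Nat.sub_add_cancel (by omega), Nat.mod_eq_of_lt a2])]
      omega
  have hinj : Set.InjOn τ A := by
    intro z hz w hw hzw
    simp only [τ] at hzw
    split_ifs at hzw with a1 a2 a2
    · exact sub_right_injective hzw
    · exact (claim (g - z) a1 (by rwa [sub_sub_cancel])
        (by rwa [hzw, sub_add_cancel, sub_sub_cancel])).elim
    · exact (claim (g - w) a2 (by rwa [sub_sub_cancel])
        (by rwa [← hzw, sub_add_cancel, sub_sub_cancel])).elim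
    · exact sub_right_injective (sub_left_injective hzw)
  have e1 := card_union_add_card_inter B (A.image τ)
  rw [card_image_of_injOn hinj] at e1
  have e2 := hQ (B ∪ A.image τ) fun x hx => by
    rcases mem_union.1 hx with a1 | a1
    · exact (mem_filter.1 a1).2
    · obtain ⟨z, _, rfl⟩ := mem_image.1 a1
      exact f3 z
  have e3 : B ∩ A.image τ ⊆ {x ∈ A | g - 0 - x ∈ A} ∪ {x ∈ A | g - x1 - x ∈ A} := by
    intro x hx
    rw [mem_inter] at hx
    obtain ⟨z, hz, rfl⟩ := mem_image.1 hx.2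
    have a1 := (mem_filter.1 hx.1).1
    rw [mem_union, mem_filter, mem_filter]
    simp only [τ] at a1 ⊢
    split_ifs at a1 ⊢
    · left; exact ⟨a1, by rwa [sub_zero, sub_sub_cancel]⟩
    · right; exact ⟨a1, by rwa [show g - x1 - (g - z - x1) = z by abel]⟩
  have e4 := (card_le_card e3).trans (card_union_le _ _)
  have e5 := greps_three h2t hg h0
  have e6 := greps_three h2t hg h1
  omega

lemma gshift_miss {A : Finset G} {g : G} (t : G) (hg : g ∉ rsum3 A) :
    g + (t + t + t) ∉ rsum3 (A.image fun x => x + t) := by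
  rintro ⟨a, ha, b, hb, c, hc, h1, h2, h3, h4⟩
  obtain ⟨a, ha', rfl⟩ := mem_image.1 ha
  obtain ⟨b, hb', rfl⟩ := mem_image.1 hb
  obtain ⟨c, hc', rfl⟩ := mem_image.1 hc
  refine hg ⟨a, ha', b, hb', c, hc', fun h => h1 (by rw [h]), fun h => h2 (by rw [h]),
    fun h => h3 (by rw [h]), add_right_cancel (b := t + t + t) ?_⟩
  rw [← h4]
  abel

theorem garc_of_concl {π : G →+ ZMod d} {h : ℕ} (hF : GFib π h)
    (h2t : ∀ a b : G, a + a = b + b → a = b) {A : Finset G}
    {g : G} (hg : g ∉ rsum3 A) (hne : A.Nonempty)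
    (hc : Concl d h (gcnt π A) #A) : ∃ s : ZMod d, ∀ a ∈ A, 2 * (π a + s).val < d := by
  obtain ⟨lo, L, hw, hL⟩ := hc
  have hw' : ∀ a ∈ A, lo ≤ gfib π a ∧ gfib π a < lo + L := fun a ha =>
    hw _ (gfib_lt π a) (card_pos.2 ⟨a, mem_filter.2 ⟨ha, rfl⟩⟩)
  obtain ⟨x0, hx0, hmin⟩ := exists_min_image A (gfib π) hne
  obtain ⟨x1, hx1, hmax⟩ := exists_max_image A (gfib π) hne
  have f1 : ∀ a ∈ A, gfib π (a + -x0) = gfib π a - gfib π x0 := fun a ha => by
    rw [← sub_eq_add_neg]
    exact gfib_sub π (by have := gfib_lt π a; omega)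
      (by rw [Nat.sub_add_cancel (hmin a ha), Nat.mod_eq_of_lt (gfib_lt π a)])
  have a0 := hw' x0 hx0
  have a1 := hw' x1 hx1
  have key : 2 * (gfib π x1 - gfib π x0) < d := by
    rcases hL with hL | hL
    · omega
    · refine gstrip hF h2t (gshift_miss (-x0) hg) (x1 := x1 + -x0)
        (mem_image.2 ⟨x0, hx0, add_neg_cancel x0⟩) (mem_image.2 ⟨x1, hx1, rfl⟩) (f1 x1 hx1) ?_ ?_
      · intro a ha
        obtain ⟨b, hb, rfl⟩ := mem_image.1 ha
        rw [f1 b hb]
        have := hmax b hb
        omega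
      · rw [card_image_of_injective _ (add_left_injective _)]
        have := Nat.mul_le_mul_right h (show gfib π x1 - gfib π x0 + 2 ≤ L + 1 by omega)
        omega
  refine ⟨π (-x0), fun a ha => ?_⟩
  have b2 := hmax a ha
  have b3 := f1 a ha
  rw [← map_add]
  change 2 * gfib π (a + -x0) < d
  omega

end Pool.Agent.Lib.MP_7ad46c_co
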