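import Pool.Agent.Lib.MP_7ad46c_co.G.Four
import Pool.Agent.Lib.MP_7ad46c_co.G.End
import Pool.Agent.Lib.MP_7ad46c_co.Arc
import Pool.Agent.Lib.MP_7ad46c_co.Main

/-! The upper bounds in an arbitrary finite abelian group of odd order. -/

set_option autoImplicit false

namespace Pool.Agent.Lib.MP_7ad46c_co

open Finset

lemma GOut.outc {d h F m : ℕ} (H : GOut d h F m) : Outc d h F m := by
  rcases H with H | H | H | H
  · exact Or.inl H
  · exact Or.inr (Or.inl H)
  · exact Or.inr (Or.inr (Or.inl H))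
  · exact Or.inr (Or.inr (Or.inr (Or.inl H)))

/-- A large set that misses a restricted triple sum is subject to the end analysis over some
cyclic quotient. -/
theorem garc {G : Type} [AddCommGroup G] [Finite G] (hn : 17 ≤ Nat.card G)
    (ho : Odd (Nat.card G)) (hp : ¬ (Nat.card G).Prime) {A : Finset G} {g : G}
    (hg : g ∉ rsum3 A) (hA : Nat.card G + 8 ≤ 3 * A.card) :
    ∃ (d : ℕ) (π : G →+ ZMod d), 1 < d ∧ Function.Surjective π ∧
      ∀ F, Bd π.ker F → GOut d (Nat.card π.ker) F A.card := by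
  classical
  have := Fintype.ofFinite G
  have h2t := gtwo_inj ho
  obtain ⟨d, h, r, _, π, t, hd, hd1, hr, hπ, P⟩ :=
    gexists_prof Nat.card_eq_fintype_card.symm hn h2t hg hA
  have hh : Nat.card π.ker = h :=
    Nat.eq_of_mul_eq_mul_left (by omega) ((gcard_ker hπ).symm.trans hd)
  have ho' := Nat.odd_mul.1 (hd ▸ ho)
  have C := concl_all P hr hd1 (hd ▸ hn) (hd ▸ hp) (Nat.odd_iff.1 ho'.1) (Nat.odd_iff.1 ho'.2)
  have hG : Fintype.card G = d * h := Nat.card_eq_fintype_card.symm.trans hd
  have hc := card_image_of_injective A (add_left_injective t)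
  rw [← hc] at C
  obtain ⟨s, hs⟩ := garc_of_concl (gfib_of_surj hπ hG) h2t (gshift_miss t hg)
    ((card_pos.1 (by omega)).image _) C
  refine ⟨d, π, hd1, hπ, fun F hF => ?_⟩
  rw [hh, ← hc]
  exact gend_analysis hd1 ho'.1 ho'.2 (hd ▸ hn) π hπ hG h2t hF (gshift_miss t hg) s hs

lemma gbd_equiv {H G : Type} [AddCommGroup H] [AddCommGroup G] {F : ℕ} (hF : Bd H F)
    (e : H ≃+ G) : Bd G F := fun _ _ hg =>
  hF.of_hom e.toAddMonoidHom e.injective (c := 0) hg (fun _ _ => e.surjective _) (e.surjective _)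

lemma gcyc {G : Type} [AddCommGroup G] (hc : IsAddCyclic G) {n : ℕ} (hn : Nat.card G = n) :
    Nonempty (ZMod n ≃+ G) :=
  ⟨(ZMod.ringEquivCongr hn.symm).toAddEquiv.trans (zmodAddCyclicAddEquiv hc)⟩

lemma gcyc_prime {G : Type} [AddCommGroup G] {p : ℕ} (hp : p.Prime) (hn : Nat.card G = p) :
    Nonempty (ZMod p ≃+ G) := by
  have := Fact.mk hp
  exact gcyc (isAddCyclic_of_prime_card hn) hn

lemma gbd_small {G : Type} [AddCommGroup G] [Finite G] {h : ℕ} (hG : Nat.card G = h) (ho : Odd h)
    (h17 : h < 17) : Bd G (Fb h) := by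
  classical
  by_cases hp : h.Prime
  · obtain ⟨e⟩ := gcyc_prime hp hG
    exact gbd_equiv (bd_small ho h17) e
  have := Fintype.ofFinite G
  intro A g hg
  have h1 := bd_half (gtwo_inj (hG ▸ ho)) hg
  have h2 := Finset.card_le_univ A
  rw [← Nat.card_eq_fintype_card, hG] at h1 h2
  rcases Fb_cases ho with c | c | c | c | c | c | c | c | c
  · omega
  · omega
  · omega
  · exact absurd (c.1 ▸ by norm_num) hp
  · omega
  · exact absurd (c.1 ▸ by norm_num) hp
  · exact absurd (c.1 ▸ by norm_num) hp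
  · omega
  · omega

/-- The bound of the cyclic case holds in every group of odd order. -/
theorem gbd (n : ℕ) : ∀ (G : Type) [AddCommGroup G] [Finite G], Nat.card G = n → Odd n →
    Bd G (Fb n) := by
  induction n using Nat.strong_induction_on with
  | _ n ih =>
    intro G _ _ hG ho
    by_cases h17 : n < 17
    · exact gbd_small hG ho h17
    by_cases hp : n.Prime
    · obtain ⟨e⟩ := gcyc_prime hp hG
      exact gbd_equiv (bd_prime hp (by omega)) e
    intro A g hg
    rw [Fb_big (by omega)]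
    by_contra hc
    have h1 := (f_lower (n := n) (by omega) ho).1
    subst hG
    obtain ⟨d, π, hd1, hπ, H⟩ := garc (by omega) ho hp hg (by omega)
    have hd := gcard_ker hπ
    have ho' := Nat.odd_mul.1 (hd ▸ ho)
    have hpos := ho'.2.pos
    have h2 := outc_lt hd1 ho'.1 ho'.2 (by omega)
      (H _ (ih _ (by nlinarith) π.ker rfl ho'.2)).outc
    rw [← hd] at h2
    omega

/-- The better bound when the 3-part of the group is far from cyclic. -/
theorem gbd_far (k n : ℕ) : ∀ (G : Type) [AddCommGroup G] [Finite G], Nat.card G = n → Odd n →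
    ¬ (P2 n).Nonempty → 3 ^ k * 27 ∣ n → ¬ 3 ^ (k + 1) ∣ AddMonoid.exponent G →
    Bd G ((n + 7) / 3) := by
  induction n using Nat.strong_induction_on with
  | _ n ih =>
    intro G _ _ hG ho hP hk he A g hg
    by_contra hc
    have h27 : 27 ∣ n := (Dvd.intro_left _ rfl).trans hk
    have hn : 27 ≤ n := Nat.le_of_dvd ho.pos h27
    have hp : ¬ n.Prime := fun hp => by
      have := (Nat.dvd_prime hp).1 ((show 3 ∣ 27 by norm_num).trans h27)
      omega
    subst hG
    obtain ⟨d, π, hd1, hπ, H⟩ := garc (by omega) ho hp hg (by omega)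
    have hd := gcard_ker hπ
    have ho' := Nat.odd_mul.1 (hd ▸ ho)
    have hpos := ho'.2.pos
    have hP' : ¬ (P2 (Nat.card π.ker)).Nonempty := fun ⟨p, a, b, c⟩ =>
      hP ⟨p, a, b.trans (Dvd.intro_left d hd.symm), c⟩
    have hd2 : d % 3 ≠ 2 := fun h2 => by
      obtain ⟨p, a, b, c⟩ := exists_prime_two d h2
      exact hP ⟨p, a, b.trans (Dvd.intro _ hd.symm), c⟩
    by_cases hd3 : d % 3 = 1
    · have hco : Nat.Coprime (3 ^ k * 27) d := by
        have h3 : Nat.Coprime 3 d := (Nat.Prime.coprime_iff_not_dvd Nat.prime_three).2 (by omega)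
        exact Nat.Coprime.mul_left (Nat.Coprime.pow_left k h3) (Nat.Coprime.pow_left 3 h3)
      have h1 := H _ (ih _ (by nlinarith) π.ker rfl ho'.2 hP'
        (hco.dvd_of_dvd_mul_left (hd ▸ hk)) fun h => he (h.trans
          (AddMonoid.exponent_dvd_of_addMonoidHom π.ker.subtype π.ker.subtype_injective)))
      unfold GOut at h1
      rw [← hd] at h1
      omega
    · have h27' : 27 ∣ Nat.card π.ker := by
        obtain ⟨a, u, hu, hdu⟩ := Nat.exists_eq_pow_mul_and_not_dvd (n := d) (by omega) 3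
          (by norm_num)
        have ha : a ≤ k := by
          by_contra hlt
          exact he ((pow_dvd_pow 3 (by omega)).trans
            ((Dvd.intro u hdu.symm).trans (gquot_dvd_exp hπ)))
        have h3 : 3 ^ a * 27 ∣ 3 ^ a * (u * Nat.card π.ker) := by
          rw [← mul_assoc, ← hdu, ← hd]
          exact (Nat.mul_dvd_mul_right (pow_dvd_pow 3 ha) 27).trans hk
        have h4 : Nat.Coprime 3 u := (Nat.Prime.coprime_iff_not_dvd Nat.prime_three).2 hu
        exact (Nat.Coprime.pow_left 3 h4).dvd_of_dvd_mul_left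
          (Nat.dvd_of_mul_dvd_mul_left (by positivity) h3)
      have h5 := Nat.le_of_dvd hpos h27'
      have h1 := H _ (gbd _ π.ker rfl ho'.2)
      have h6 := (f_typeII hP').2
      rw [Fb_big (by omega)] at h1
      unfold GOut at h1
      rw [← hd] at h1
      split_ifs at h6 <;> omega

end Pool.Agent.Lib.MP_7ad46c_co
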